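import Pool.Agent.H68.Ind.Data3
import Pool.Agent.H68.Ind.Data4
import Pool.Agent.H68.Ind.Data5
import Pool.Agent.H68.Ind.Data6
import Pool.Agent.H68.Ind.Data7

/-!
The graphs with at most seven vertices whose inducibility can be the iterated blow-up value.

Let `H` be a graph with `h ≥ 3` vertices and inducibility `h! / (h ^ h - h)`. Then `H` has no
nontrivial module, and every graph which is isomorphic to `H` and differs from `H` only in the
neighbourhood of one vertex is equal to `H`. For `h ≤ 7` the graphs with both properties are found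
by a finite computation, which the kernel checks: up to complements they are `C5`, `C6`, the net,
`C7` and three more graphs on seven vertices.
-/

set_option autoImplicit false

open Pool.Agent.H68.Ind

namespace Pool.Agent.Results.MP_61f483_co.AtMostSevenVertices

/-- The graph on `{0, …, h - 1}` with the edges in the list `E`. -/
def ofEdges (h : ℕ) (E : List (ℕ × ℕ)) : SimpleGraph (Fin h) where
  Adj a b := a ≠ b ∧ ((a.1, b.1) ∈ E ∨ (b.1, a.1) ∈ E)
  symm := ⟨fun _ _ h => ⟨h.1.symm, h.2.symm⟩⟩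
  loopless := ⟨fun _ h => h.1 rfl⟩

/-- `H` or its complement is isomorphic to `X`. -/
def IsoUpToCompl {h k : ℕ} (H : SimpleGraph (Fin h)) (X : SimpleGraph (Fin k)) : Prop :=
  Nonempty (H ≃g X) ∨ Nonempty (Hᶜ ≃g X)

/-- the net: a triangle with one pendant edge at each of its vertices -/
def net : SimpleGraph (Fin 6) := ofEdges 6 [(0, 1), (1, 2), (2, 0), (0, 3), (1, 4), (2, 5)]

/-- a triangle and two four-cycles glued along one common edge -/
def F1 : SimpleGraph (Fin 7) :=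
  ofEdges 7 [(0, 1), (0, 2), (2, 1), (0, 3), (3, 4), (4, 1), (0, 5), (5, 6), (6, 1)]

/-- `K4` with the three edges at one vertex subdivided once -/
def F2 : SimpleGraph (Fin 7) :=
  ofEdges 7 [(1, 2), (2, 3), (3, 1), (0, 4), (4, 1), (0, 5), (5, 2), (0, 6), (6, 3)]

/-- a triangle with a triangle glued to two of its edges and a four-cycle to the third -/
def F3 : SimpleGraph (Fin 7) :=
  ofEdges 7 [(0, 1), (1, 2), (2, 0), (0, 3), (3, 1), (0, 4), (4, 2), (1, 5), (5, 6), (6, 2)]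

instance (h : ℕ) (E : List (ℕ × ℕ)) : DecidableRel (ofEdges h E).Adj := fun a b =>
  inferInstanceAs (Decidable (a ≠ b ∧ ((a.1, b.1) ∈ E ∨ (b.1, a.1) ∈ E)))

instance : DecidableRel net.Adj :=
  inferInstanceAs (DecidableRel (ofEdges 6 [(0, 1), (1, 2), (2, 0), (0, 3), (1, 4), (2, 5)]).Adj)

instance : DecidableRel F1.Adj := inferInstanceAs (DecidableRel
  (ofEdges 7 [(0, 1), (0, 2), (2, 1), (0, 3), (3, 4), (4, 1), (0, 5), (5, 6), (6, 1)]).Adj)

instance : DecidableRel F2.Adj := inferInstanceAs (DecidableRel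
  (ofEdges 7 [(1, 2), (2, 3), (3, 1), (0, 4), (4, 1), (0, 5), (5, 2), (0, 6), (6, 3)]).Adj)

instance : DecidableRel F3.Adj := inferInstanceAs (DecidableRel
  (ofEdges 7 [(0, 1), (1, 2), (2, 0), (0, 3), (3, 1), (0, 4), (4, 2), (1, 5), (5, 6), (6, 2)]).Adj)

/-- the table of an isomorphism of `graphOf h r` onto `X` -/
def isoCheck (h r : ℕ) (X : SimpleGraph (Fin h)) [DecidableRel X.Adj] (f : Fin h → Fin h) : Bool :=
  decide (∀ a b : Fin h, (f a = f b → a = b) ∧ (X.Adj (f a) (f b) ↔ adjB r a.1 b.1 = true))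

theorem iso_of_check {h r : ℕ} {X : SimpleGraph (Fin h)} [DecidableRel X.Adj]
    {f : Fin h → Fin h} (hc : isoCheck h r X f = true) : Nonempty (graphOf h r ≃g X) := by
  unfold isoCheck at hc
  rw [decide_eq_true_eq] at hc
  have hinj : Function.Injective f := fun a b => (hc a b).1
  have hbij : Function.Bijective f := Finite.injective_iff_bijective.1 hinj
  exact ⟨⟨Equiv.ofBijective f hbij, fun {a b} => (hc a b).2⟩⟩

theorem up_of_iso {h r : ℕ} {H X : SimpleGraph (Fin h)} (e : Nonempty (graphOf h r ≃g X))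
    (hH : Nonempty (H ≃g graphOf h r) ∨ Nonempty (Hᶜ ≃g graphOf h r)) : IsoUpToCompl H X := by
  obtain ⟨e⟩ := e
  rcases hH with ⟨⟨f⟩⟩ | ⟨⟨f⟩⟩
  · exact Or.inl ⟨f.trans e⟩
  · exact Or.inr ⟨f.trans e⟩

theorem complIso {h : ℕ} {H K : SimpleGraph (Fin h)} (e : H ≃g K) : Nonempty (Hᶜ ≃g Kᶜ) := by
  refine ⟨⟨e.toEquiv, ?_⟩⟩
  intro a b
  change Kᶜ.Adj (e a) (e b) ↔ Hᶜ.Adj a b
  rw [SimpleGraph.compl_adj, SimpleGraph.compl_adj, e.map_adj_iff, e.injective.ne_iff]

theorem up_of_compl {h r : ℕ} {H X : SimpleGraph (Fin h)} (e : Nonempty (graphOf h r ≃g Xᶜ))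
    (hH : Nonempty (H ≃g graphOf h r) ∨ Nonempty (Hᶜ ≃g graphOf h r)) : IsoUpToCompl H X := by
  obtain ⟨e⟩ := e
  rcases hH with ⟨⟨f⟩⟩ | ⟨⟨f⟩⟩
  · right
    obtain ⟨g⟩ := complIso (f.trans e)
    rw [compl_compl] at g
    exact ⟨g⟩
  · left
    obtain ⟨g⟩ := complIso (f.trans e)
    rw [compl_compl, compl_compl] at g
    exact ⟨g⟩

/-- **The members of the family with at most seven vertices.** -/
theorem result (h : ℕ) (hh : 2 ≤ h) (h7 : h ≤ 7) (H : SimpleGraph (Fin h)) (hH : Member H) :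
    h = 2 ∨ IsoUpToCompl H (SimpleGraph.cycleGraph 5) ∨
      IsoUpToCompl H (SimpleGraph.cycleGraph 6) ∨ IsoUpToCompl H net ∨
      IsoUpToCompl H (SimpleGraph.cycleGraph 7) ∨ IsoUpToCompl H F1 ∨ IsoUpToCompl H F2 ∨
      IsoUpToCompl H F3 := by
  interval_cases h
  · exact Or.inl rfl
  · obtain ⟨r, hr, _⟩ := classify3 H hH
    simp [exc3] at hr
  · obtain ⟨r, hr, _⟩ := classify4 H hH
    simp [exc4] at hr
  · right; left
    obtain ⟨r, hr, hi⟩ := classify5 H hH
    have h1 : r = 236 := by simpa [exc5] using hr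
    subst h1
    exact up_of_iso (iso_of_check (f := ![0, 2, 3, 4, 1]) (by decide +kernel)) hi
  · obtain ⟨r, hr, hi⟩ := classify6 H hH
    have h1 : r = 1191 ∨ r = 3440 ∨ r = 3447 := by simpa [exc6] using hr
    rcases h1 with rfl | rfl | rfl
    · exact Or.inr (Or.inr (Or.inr (Or.inl (up_of_iso (iso_of_check (X := net)
        (f := ![0, 1, 2, 5, 4, 3]) (by decide +kernel)) hi))))
    · exact Or.inr (Or.inr (Or.inl (up_of_iso (iso_of_check
        (f := ![0, 2, 4, 3, 5, 1]) (by decide +kernel)) hi)))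
    · exact Or.inr (Or.inr (Or.inr (Or.inl (up_of_compl (iso_of_check (X := netᶜ)
        (f := ![3, 4, 5, 0, 1, 2]) (by decide +kernel)) hi))))
  · obtain ⟨r, hr, hi⟩ := classify7 H hH
    have h1 : r = 104021 ∨ r = 104038 ∨ r = 104052 ∨ r = 104096 ∨ r = 104103 ∨ r = 104126 ∨ r = 104250 ∨
        r = 104253 ∨ r = 111597 ∨ r = 239265 ∨ r = 241524 ∨ r = 255648 ∨ r = 257904 := by
      simpa [exc7] using hr
    rcases h1 with rfl | rfl | rfl | rfl | rfl | rfl | rfl | rfl | rfl | rfl | rfl | rfl | rfl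
    · exact Or.inr (Or.inr (Or.inr (Or.inr (Or.inr (Or.inl (up_of_iso (iso_of_check (X := F1)
        (f := ![0, 1, 4, 6, 5, 3, 2]) (by decide +kernel)) hi))))))
    · exact Or.inr (Or.inr (Or.inr (Or.inr (Or.inr (Or.inl (up_of_iso (iso_of_check (X := F1)
        (f := ![0, 4, 1, 6, 5, 2, 3]) (by decide +kernel)) hi))))))
    · exact Or.inr (Or.inr (Or.inr (Or.inr (Or.inr (Or.inr (Or.inl (up_of_iso (iso_of_check (X := F2)
        (f := ![0, 1, 2, 3, 6, 5, 4]) (by decide +kernel)) hi)))))))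
    · exact Or.inr (Or.inr (Or.inr (Or.inr (Or.inl (up_of_iso (iso_of_check (X := SimpleGraph.cycleGraph 7)
        (f := ![0, 2, 5, 4, 3, 6, 1]) (by decide +kernel)) hi)))))
    · exact Or.inr (Or.inr (Or.inr (Or.inr (Or.inr (Or.inr (Or.inr (up_of_iso (iso_of_check (X := F3)
        (f := ![0, 1, 2, 6, 5, 4, 3]) (by decide +kernel)) hi)))))))
    · exact Or.inr (Or.inr (Or.inr (Or.inr (Or.inr (Or.inr (Or.inr (up_of_compl (iso_of_check (X := (F3)ᶜ)
        (f := ![5, 6, 3, 4, 1, 2, 0]) (by decide +kernel)) hi)))))))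
    · exact Or.inr (Or.inr (Or.inr (Or.inr (Or.inr (Or.inr (Or.inr (up_of_iso (iso_of_check (X := F3)
        (f := ![1, 6, 0, 2, 4, 3, 5]) (by decide +kernel)) hi)))))))
    · exact Or.inr (Or.inr (Or.inr (Or.inr (Or.inr (Or.inr (Or.inr (up_of_compl (iso_of_check (X := (F3)ᶜ)
        (f := ![5, 3, 6, 4, 1, 0, 2]) (by decide +kernel)) hi)))))))
    · exact Or.inr (Or.inr (Or.inr (Or.inr (Or.inr (Or.inl (up_of_compl (iso_of_check (X := (F1)ᶜ)
        (f := ![3, 5, 4, 6, 2, 0, 1]) (by decide +kernel)) hi))))))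
    · exact Or.inr (Or.inr (Or.inr (Or.inr (Or.inr (Or.inr (Or.inl (up_of_iso (iso_of_check (X := F2)
        (f := ![1, 2, 6, 0, 5, 4, 3]) (by decide +kernel)) hi)))))))
    · exact Or.inr (Or.inr (Or.inr (Or.inr (Or.inr (Or.inr (Or.inl (up_of_compl (iso_of_check (X := (F2)ᶜ)
        (f := ![0, 4, 5, 6, 1, 2, 3]) (by decide +kernel)) hi)))))))
    · exact Or.inr (Or.inr (Or.inr (Or.inr (Or.inr (Or.inr (Or.inl (up_of_iso (iso_of_check (X := F2)
        (f := ![4, 5, 6, 3, 2, 1, 0]) (by decide +kernel)) hi)))))))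
    · exact Or.inr (Or.inr (Or.inr (Or.inr (Or.inr (Or.inr (Or.inl (up_of_compl (iso_of_check (X := (F2)ᶜ)
        (f := ![1, 2, 3, 4, 5, 6, 0]) (by decide +kernel)) hi)))))))

end Pool.Agent.Results.MP_61f483_co.AtMostSevenVertices
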