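import Pool.Agent.Icy.Final

/-!
# All sufficiently long cycles have the inducibility conjectured by Pippenger and Golumbic

There is `k₀` such that for every `k ≥ k₀` the inducibility of the cycle `C_k` is
`k! / (k ^ k - k)`, the value of the iterated balanced blow-up of `C_k`.

Outline of the proof (the details are in the files `Pool/Agent/Icy`).  For weights `x ≥ 0` on the
vertices of `G` with total weight `k` let `NN` be the total weight of the labelled induced `k`-cycles.
The theorem is equivalent to `NN (1 - k / k ^ k) ≤ 2 k`.
1. Entropy: for optimal weights a random induced cycle (drawn proportionally to its weight) has, at
   almost every position, a set of possible next vertices of weight about 1, and no vertex is adjacent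
   to many vertices of a typical cycle.
2. A sequence of inequalities for the number of completions of an induced path shows that almost all
   vertices are clones of a vertex of a typical cycle, and then that the whole graph is, up to a
   vanishing weight, a blow-up of `C_k` with few wrong pairs.
3. A growth process with a summable defect gives one cycle whose clone classes have in total at most
   `η` weight of wrong pairs and of other vertices, `η` small and fixed.
4. Exact stability: every vertex is in few wrong pairs, no induced cycle has exactly one wrong pair,
   and so wrong pairs lose more than they gain.
-/

set_option autoImplicit false

open Pool.Agent.H68.Ind

namespace Pool.Agent.Results.MP_61f483_co.LargeCycles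

/-- **Theorem.** All sufficiently long cycles belong to the family: there is `k₀` such that for all
`k ≥ k₀` the inducibility of the cycle on `k` vertices is `k! / (k ^ k - k)`. -/
theorem result : ∃ k₀ : ℕ, ∀ k : ℕ, k₀ ≤ k → Member (SimpleGraph.cycleGraph k) :=
  Pool.Agent.Icy.cycles_member

end Pool.Agent.Results.MP_61f483_co.LargeCycles
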