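import Pool.Agent.H68.Ind.Necessary

/-!
Members of the family are prime with respect to modular decomposition.
-/

set_option autoImplicit false

open Pool.Agent.H68.Ind

namespace Pool.Agent.Results.MP_61f483_co.NoModule

theorem result (h : ℕ) (H : SimpleGraph (Fin h)) (hH : Member H) (M : Finset (Fin h))
    (hM : 2 ≤ M.card) (hMh : M.card < h) :
    ∃ v, v ∉ M ∧ ∃ a ∈ M, ∃ b ∈ M, H.Adj v a ∧ ¬ H.Adj v b := by
  by_contra hcon
  push Not at hcon
  exact no_module hH M hM hMh fun v hv a ha b hb =>
    ⟨fun h1 => hcon v hv a ha b hb h1, fun h1 => hcon v hv b hb a ha h1⟩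

end Pool.Agent.Results.MP_61f483_co.NoModule
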