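import Pool.Agent.H68.Ind.Unique

/-!
Members of the family are uniquely extendable.

Let `H` be a graph on `h ≥ 3` vertices with inducibility `h! / (h ^ h - h)`. If `K` is a graph on
the same vertices which differs from `H` only in the neighbourhood of one vertex `v`, and if `K` is
isomorphic to `H`, then `K = H`. Otherwise the vertices in the blow-up of `v` in the iterated
blow-up of `H` may have either of the two neighbourhoods; all the old copies of `H` survive, and the
types can be chosen so that there is one more copy, with one vertex outside the blow-up of `v`.
-/

set_option autoImplicit false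

open Pool.Agent.H68.Ind

namespace Pool.Agent.Results.MP_61f483_co.UniqueExtension

theorem result (h : ℕ) (hh : 3 ≤ h) (H : SimpleGraph (Fin h)) (hH : Member H) (v : Fin h)
    (K : SimpleGraph (Fin h)) (hK : ∀ x y, x ≠ v → y ≠ v → (K.Adj x y ↔ H.Adj x y))
    (hiso : Nonempty (K ≃g H)) : K = H := by
  obtain ⟨e⟩ := hiso
  exact unique_ext hh hH v K hK e

end Pool.Agent.Results.MP_61f483_co.UniqueExtension
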